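import Pool.Agent.KM.Final

/-!
# The oriented Kesten-McKay law for random regular digraphs

For every fixed `d ≥ 1` the mean empirical eigenvalue distribution of a uniformly random `n × n`
matrix with entries `0`, `1` and all row and column sums equal to `d` converges weakly to the
explicit measure `limitMeasure d` (the Brown measure of a sum of `d` free Haar unitaries).
-/

open MeasureTheory Filter Topology Finset
open scoped BoundedContinuousFunction

namespace Pool.Agent.Results.MP_72cda1_pr.OrientedKestenMcKay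

/-- the `n × n` matrices with entries in `{0,1}` all of whose row and column sums equal `d` -/
def RegularMatrices (n d : ℕ) : Set (Matrix (Fin n) (Fin n) ℂ) :=
  {A | (∀ i j, A i j = 0 ∨ A i j = 1) ∧ (∀ i, ∑ j, A i j = d) ∧ (∀ j, ∑ i, A i j = d)}

/-- `(1/n) ∑ f (λ_i)` over the complex eigenvalues with multiplicity -/
noncomputable def eigenvalueAverage {n : ℕ} (A : Matrix (Fin n) (Fin n) ℂ) (f : ℂ → ℂ) : ℂ :=
  (A.charpoly.roots.map f).sum / n

/-- expectation of `g A` for a uniformly random element `A` of `RegularMatrices n d` -/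
noncomputable def expectation (n d : ℕ) (g : Matrix (Fin n) (Fin n) ℂ → ℂ) : ℂ :=
  (∑ᶠ A ∈ RegularMatrices n d, g A) / (RegularMatrices n d).ncard

/-- for `d = 1` the uniform distribution on the unit circle, for `d ≥ 2` the measure with density
`d² (d-1) / (π (d² - |z|²)²)` on the disc `|z| < √d` -/
noncomputable def limitMeasure (d : ℕ) : Measure ℂ :=
  if d = 1 then (ENNReal.ofReal (2 * Real.pi))⁻¹ •
    (volume.restrict (Set.Ioc 0 (2 * Real.pi))).map (fun θ : ℝ => Complex.exp (θ * Complex.I))
  else volume.withDensity (fun z => ENNReal.ofReal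
    (if ‖z‖ < √d then (d : ℝ) ^ 2 * (d - 1) / (Real.pi * ((d : ℝ) ^ 2 - ‖z‖ ^ 2) ^ 2) else 0))

open Pool.Agent.SMin Pool.Agent.KM

lemma adj_mem {n d : ℕ} (B : Fin n → Fin n → Bool) : Adj B ∈ RegularMatrices n d ↔ B ∈ Reg n d := by
  have h1 : ∀ i, ∑ j, Adj B i j = ((univ.filter (fun j => B i j = true)).card : ℂ) := by
    intro i
    rw [card_eq_sum_ones, sum_filter]
    push_cast
    rfl
  have h2 : ∀ j, ∑ i, Adj B i j = ((univ.filter (fun i => B i j = true)).card : ℂ) := by
    intro j
    rw [card_eq_sum_ones, sum_filter]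
    push_cast
    rfl
  rw [mem_Reg]
  simp only [RegularMatrices, Set.mem_ofPred_eq, h1, h2, Nat.cast_inj]
  constructor
  · rintro ⟨-, h⟩; exact h
  · intro h
    refine ⟨fun i j => ?_, h⟩
    by_cases hb : B i j = true
    · right; simp [Adj, hb]
    · left; simp [Adj, hb]

lemma adj_injective (n : ℕ) : Function.Injective (Adj (n := n)) := by
  intro B B' h
  funext i j
  have h1 := congrFun (congrFun h i) j
  simp only [Adj, Matrix.of_apply] at h1
  by_cases hb : B i j = true <;> by_cases hb' : B' i j = true <;> simp_all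

lemma regular_eq (n d : ℕ) : RegularMatrices n d = Adj '' (Reg n d : Set (Fin n → Fin n → Bool)) := by
  ext A
  constructor
  · intro hA
    refine ⟨fun i j => decide (A i j = 1), ?_, ?_⟩
    · have hAB : Adj (fun i j => decide (A i j = 1)) = A := by
        ext i j
        rcases hA.1 i j with h | h <;> simp [Adj, h]
      rw [mem_coe, ← adj_mem, hAB]
      exact hA
    · ext i j
      rcases hA.1 i j with h | h <;> simp [Adj, h]
  · rintro ⟨B, hB, rfl⟩
    exact (adj_mem B).2 (mem_coe.1 hB)

lemma expectation_eq (n d : ℕ) (g : Matrix (Fin n) (Fin n) ℂ → ℂ) :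
    expectation n d g = (∑ B ∈ Reg n d, g (Adj B)) / ((Reg n d).card : ℂ) := by
  unfold expectation
  rw [regular_eq, finsum_mem_image (adj_injective n).injOn, finsum_mem_coe_finset,
    Set.ncard_image_of_injective _ (adj_injective n), Set.ncard_coe_finset]

lemma expectation_average (n d : ℕ) (f : ℂ → ℂ) :
    expectation n d (fun A => eigenvalueAverage A f) =
      ((avg (Reg n d) (fun B => Nf B (fun z => (f z).re)) : ℝ) : ℂ) +
      ((avg (Reg n d) (fun B => Nf B (fun z => (f z).im)) : ℝ) : ℂ) * Complex.I := by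
  have hm : ∀ s : Multiset ℂ, (s.map f).sum =
      (((s.map (fun z => (f z).re)).sum : ℝ) : ℂ) + (((s.map (fun z => (f z).im)).sum : ℝ) : ℂ) *
        Complex.I := by
    intro s
    induction s using Multiset.induction_on with
    | empty => simp
    | cons a s ih =>
      rw [Multiset.map_cons, Multiset.sum_cons, ih, Multiset.map_cons, Multiset.sum_cons,
        Multiset.map_cons, Multiset.sum_cons]
      conv_lhs => rw [← Complex.re_add_im (f a)]
      push_cast
      ring
  rw [expectation_eq]
  unfold avg Nf eigenvalueAverage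
  simp only [hm]
  push_cast
  rw [div_mul_eq_mul_div, ← add_div, sum_mul, ← sum_add_distrib]
  congr 1
  apply sum_congr rfl; intro B _; ring

lemma limit_measurable (d : ℕ) : Measurable (fun z : ℂ =>
    (if ‖z‖ < √d then (d : ℝ) ^ 2 * (d - 1) / (Real.pi * ((d : ℝ) ^ 2 - ‖z‖ ^ 2) ^ 2) else 0)) := by
  apply Measurable.ite
  · exact measurableSet_lt (by fun_prop) (by fun_prop)
  · fun_prop
  · fun_prop

lemma limit_integral (d : ℕ) (hd : 2 ≤ d) (f : ℂ → ℂ) :
    ∫ z, f z ∂(limitMeasure d) = ∫ z, (rho d z : ℂ) * f z := by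
  unfold limitMeasure
  rw [if_neg (by omega)]
  rw [integral_withDensity_eq_integral_toReal_smul]
  · apply integral_congr_ae
    filter_upwards with z
    have h1 := rho_nonneg d hd z
    unfold rho at h1
    rw [ENNReal.toReal_ofReal h1]
    unfold rho
    rw [Complex.real_smul]
  · exact ENNReal.measurable_ofReal.comp (limit_measurable d)
  · filter_upwards with z
    exact ENNReal.ofReal_lt_top

lemma limit_integral_one (f : ℂ → ℂ) (hf : Continuous f) :
    ∫ z, f z ∂(limitMeasure 1) = Real.circleAverage f 0 1 := by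
  unfold limitMeasure
  rw [if_pos rfl, integral_smul_measure, integral_map (by fun_prop) (by fun_prop),
    Real.circleAverage_def, intervalIntegral.integral_of_le (by positivity)]
  congr 1
  · rw [ENNReal.toReal_inv, ENNReal.toReal_ofReal (by positivity)]
  · simp [circleMap]

lemma limit_univ (d : ℕ) (hd : 1 ≤ d) : limitMeasure d Set.univ = 1 := by
  rcases Nat.lt_or_ge d 2 with h | h
  · have : d = 1 := by omega
    subst this
    unfold limitMeasure
    rw [if_pos rfl, Measure.smul_apply, Measure.map_apply (by fun_prop) MeasurableSet.univ,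
      Set.preimage_univ, Measure.restrict_apply_univ, Real.volume_Ioc, sub_zero, smul_eq_mul,
      ENNReal.inv_mul_cancel]
    · simp [Real.pi_pos]
    · exact ENNReal.ofReal_ne_top
  · unfold limitMeasure
    rw [if_neg (by omega), withDensity_apply _ MeasurableSet.univ, Measure.restrict_univ]
    have h1 := ofReal_integral_eq_lintegral_ofReal (integrable_rho d h)
      (Eventually.of_forall (rho_nonneg d h))
    rw [integral_rho d h] at h1
    unfold rho at h1
    rw [← h1]
    simp

lemma circle_split (f : ℂ → ℂ) (hf : Continuous f) :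
    Real.circleAverage f 0 1 = ((Real.circleAverage (fun z => (f z).re) 0 1 : ℝ) : ℂ) +
      ((Real.circleAverage (fun z => (f z).im) 0 1 : ℝ) : ℂ) * Complex.I := by
  have hint : IntervalIntegrable (fun θ => f (circleMap 0 1 θ)) volume 0 (2 * Real.pi) :=
    (hf.comp (continuous_circleMap 0 1)).intervalIntegrable _ _
  have h := integral_re_add_im ((intervalIntegrable_iff_integrableOn_Ioc_of_le
    (by positivity)).1 hint)
  rw [Real.circleAverage_def, Real.circleAverage_def, Real.circleAverage_def,
    intervalIntegral.integral_of_le (by positivity), intervalIntegral.integral_of_le (by positivity),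
    intervalIntegral.integral_of_le (by positivity), ← h, smul_eq_mul, smul_eq_mul, Complex.real_smul]
  push_cast
  simp only [RCLike.re_to_complex, RCLike.im_to_complex, RCLike.I_to_complex,
    Complex.coe_algebraMap]
  ring

lemma rho_split (d : ℕ) (hd : 2 ≤ d) (f : ℂ → ℂ) (hf : Continuous f) (C : ℝ)
    (hC : ∀ z, ‖f z‖ ≤ C) :
    ∫ z, (rho d z : ℂ) * f z = ((∫ z, (f z).re * rho d z : ℝ) : ℂ) +
      ((∫ z, (f z).im * rho d z : ℝ) : ℂ) * Complex.I := by
  have hint : Integrable (fun z => (rho d z : ℂ) * f z) :=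
    (integrable_rho d hd).ofReal.mul_bdd hf.aestronglyMeasurable
      (Eventually.of_forall hC)
  rw [← integral_re_add_im hint]
  simp only [RCLike.re_to_complex, RCLike.im_to_complex, RCLike.I_to_complex,
    Complex.coe_algebraMap, Complex.re_ofReal_mul, Complex.im_ofReal_mul, mul_comm (rho d _)]

lemma mean_limit (d : ℕ) (hd : 1 ≤ d) (f : ℂ → ℂ) (hf : Continuous f)
    (hfb : ∃ C : ℝ, ∀ z, ‖f z‖ ≤ C) :
    Tendsto (fun n : ℕ => expectation n d (fun A => eigenvalueAverage A f)) atTop
      (𝓝 (∫ z, f z ∂(limitMeasure d))) := by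
  obtain ⟨C, hC⟩ := hfb
  have hre : ∃ C : ℝ, ∀ z, |(f z).re| ≤ C := ⟨C, fun z => (Complex.abs_re_le_norm _).trans (hC z)⟩
  have him : ∃ C : ℝ, ∀ z, |(f z).im| ≤ C := ⟨C, fun z => (Complex.abs_im_le_norm _).trans (hC z)⟩
  have cre : Continuous (fun z => (f z).re) := Complex.continuous_re.comp hf
  have cim : Continuous (fun z => (f z).im) := Complex.continuous_im.comp hf
  have key : ∀ a b : ℝ, Tendsto (fun n : ℕ => avg (Reg n d) (fun B => Nf B (fun z => (f z).re)))
      atTop (𝓝 a) → Tendsto (fun n : ℕ => avg (Reg n d) (fun B => Nf B (fun z => (f z).im)))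
      atTop (𝓝 b) → Tendsto (fun n : ℕ => expectation n d (fun A => eigenvalueAverage A f)) atTop
      (𝓝 ((a : ℂ) + (b : ℂ) * Complex.I)) := by
    intro a b ha hb
    simp_rw [expectation_average]
    exact ((Complex.continuous_ofReal.tendsto a).comp ha).add
      (((Complex.continuous_ofReal.tendsto b).comp hb).mul_const _)
  rcases Nat.lt_or_ge d 2 with h | h
  · have : d = 1 := by omega
    subst this
    have h1 := key _ _ (conv_one _ cre hre) (conv_one _ cim him)
    rw [limit_integral_one f hf, circle_split f hf]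
    exact h1
  · have h1 := key _ _ (main_ge_two d h _ cre hre) (main_ge_two d h _ cim him)
    rw [limit_integral d h, rho_split d h f hf C hC]
    exact h1

/-- the oriented Kesten-McKay theorem -/
theorem result (d : ℕ) (hd : 1 ≤ d) : IsProbabilityMeasure (limitMeasure d) ∧
    ∀ f : ℂ →ᵇ ℂ, Tendsto (fun n : ℕ => expectation n d (fun A => eigenvalueAverage A f)) atTop
      (𝓝 (∫ z, f z ∂(limitMeasure d))) :=
  ⟨⟨limit_univ d hd⟩, fun f => mean_limit d hd f f.continuous ⟨‖f‖, fun z => f.norm_coe_le_norm z⟩⟩

end Pool.Agent.Results.MP_72cda1_pr.OrientedKestenMcKay
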